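import Pool.Agent.Helper88.CG.Goals
import Pool.Agent.Helper74.PP.TL
import Pool.Agent.Helper59.RR.PW
import Pool.Agent.Helper24.PP.MA
import Pool.Agent.Helper88.RR.VL

/-! # CO: the number of rough points is concentrated, also for prime `n + j` -/

set_option autoImplicit false

open Finset Filter Topology

open scoped Classical

namespace Pool.Agent.Helper40.CG

open Pool.Agent.Helper88.PP (pr Rg om Sf SS uu vv ee LA VV QQ cost)
open Pool.Agent.Helper88.RR (gg ab TB WB nz DB VM)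
open Pool.Agent.Helper88.GM (NI XI gB Sr In)
open Pool.Agent.Helper88.CG

/-! ## Labels -/

/-- the label function: `s` at `j`, `1` on `G`, `0` elsewhere -/
noncomputable def lab (j : ℕ) (G P : Finset ℕ) (s : ℕ) (i : ↥(insert j P)) : ℕ :=
  if (i : ℕ) = j then s else if (i : ℕ) ∈ G then 1 else 0

theorem lab_self (j : ℕ) (G P : Finset ℕ) (s : ℕ) :
    lab j G P s ⟨j, mem_insert_self _ _⟩ = s := by
  simp [lab]

theorem prod_lab {M : Type} [CommMonoid M] {j : ℕ} {G P : Finset ℕ} (hj : j ∉ P) (hG : G ⊆ P)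
    (s : ℕ) (φ : ℕ → ℕ → M) (h0 : ∀ i, φ 0 i = 1) :
    ∏ i : ↥(insert j P), φ (lab j G P s i) i = φ s j * ∏ i ∈ G, φ 1 i := by
  have h1 : ∏ i : ↥(insert j P), φ (lab j G P s i) i =
      ∏ i ∈ insert j P, φ (if i = j then s else if i ∈ G then 1 else 0) i :=
    Finset.prod_coe_sort (insert j P)
      (fun i => φ (if i = j then s else if i ∈ G then 1 else 0) i)
  rw [h1, prod_insert hj, if_pos rfl]
  congr 1
  rw [← prod_subset hG]
  · refine prod_congr rfl fun i hi => ?_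
    have hij : i ≠ j := fun h => hj (h ▸ hG hi)
    rw [if_neg hij, if_pos hi]
  · intro i hi hiG
    have hij : i ≠ j := fun h => hj (h ▸ hi)
    rw [if_neg hij, if_neg hiG, h0]

theorem nz_lab {j : ℕ} {G P : Finset ℕ} (hj : j ∉ P) (hG : G ⊆ P) {s : ℕ} (hs : s ≠ 0) :
    nz (lab j G P s) = G.card + 1 := by
  have h := prod_lab (M := Multiplicative ℕ) hj hG s
    (fun r _ => Multiplicative.ofAdd (if r ≠ 0 then 1 else 0)) (by intro i; simp)
  have h2 := congrArg Multiplicative.toAdd h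
  rw [toAdd_prod, toAdd_mul, toAdd_prod] at h2
  simp only [toAdd_ofAdd] at h2
  unfold nz
  rw [card_filter, h2]
  simp [hs, add_comm]

/-- `1` if `m` has no prime factor in `(y, z]`, else `0` -/
noncomputable def rg (y z m : ℕ) : ℝ := if Rg y z m then 1 else 0

theorem vv_label_one (y z m : ℕ) : vv y z 1 m = rg y z m := by
  simp [vv, rg, uu]

/-- the majorant of the primes -/
noncomputable def ff (M z y m : ℕ) : ℝ :=
  ∑ s ∈ SS z (z ^ M), 1 / (VM M z * (Nat.totient s : ℝ)) * vv y z s m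

theorem VM_pos {M z : ℕ} (hM : 1 ≤ M) (hz : 2 ≤ z) : 0 < VM M z := by
  have h1 : (1 : ℕ) ∈ SS z (z ^ M) := by
    simp only [SS, mem_filter, mem_Ico]
    refine ⟨⟨le_rfl, ?_⟩, squarefree_one, ?_⟩
    · exact Nat.one_lt_pow (by omega) (by omega)
    · intro p hp hp1
      exact absurd (Nat.dvd_one.mp hp1) hp.ne_one
  have h2 : (1 : ℝ) / (Nat.totient 1 : ℝ) = 1 := by simp
  have h3 : (1 : ℝ) ≤ VM M z := by
    calc (1 : ℝ) = (1 : ℝ) / (Nat.totient 1 : ℝ) := h2.symm
      _ ≤ _ := Finset.single_le_sum (f := fun s : ℕ => (1 : ℝ) / (Nat.totient s : ℝ))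
        (fun _ _ => by positivity) h1
  linarith

theorem SS_pos {z X s : ℕ} (hs : s ∈ SS z X) : 1 ≤ s := by
  unfold SS at hs
  rw [mem_filter, mem_Ico] at hs
  exact hs.1.1

theorem SS_lt {z X s : ℕ} (hs : s ∈ SS z X) : s < X := by
  unfold SS at hs
  rw [mem_filter, mem_Ico] at hs
  exact hs.1.2

theorem sum_ff {M z : ℕ} (hM : 1 ≤ M) (hz : 2 ≤ z) :
    ∑ s ∈ SS z (z ^ M), 1 / (VM M z * (Nat.totient s : ℝ)) = 1 := by
  have hV := VM_pos hM hz
  have h1 : ∀ s ∈ SS z (z ^ M), 1 / (VM M z * (Nat.totient s : ℝ)) =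
      1 / VM M z * (1 / (Nat.totient s : ℝ)) := fun s _ => by rw [one_div_mul_one_div]
  rw [sum_congr rfl h1, ← mul_sum]
  exact one_div_mul_cancel hV.ne'

/-- the second moments -/
theorem key (h : StmtTG) : ∃ c : ℝ, 0 < c ∧ ∃ E0 : ℕ, ∀ E z x y : ℕ, E0 ≤ E → Sr E z x y →
    ∀ b : ℕ, b < QQ x → ∀ P : Finset ℕ, P ⊆ Icc 1 y → (P.card : ℝ) * om y z ≤ (E : ℝ) ^ 2 / 2 →
    ∀ j ∈ Icc 1 y, j ∉ P → ∀ G ⊆ P, G.card ≤ 2 →
    |∑ n ∈ NI (x / 32) x (QQ x) b, ff (E / 32) z y (n + j) ^ 2 * ∏ i ∈ G, rg y z (n + i)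
      - XI (x / 32) x (QQ x) * (gg y z (G.card + 1) / VM (E / 32) z)|
      ≤ Real.exp (-(c * E)) * XI (x / 32) x (QQ x) := by
  obtain ⟨c, hc, E0, hTG⟩ := h
  obtain ⟨c', hc', hvl⟩ := Pool.Agent.Helper88.RR.vl
  obtain ⟨J, hJ⟩ := exists_nat_ge (2 / c')
  refine ⟨c, hc, max E0 (64 * 2 ^ J), ?_⟩
  intro E z x y hE hSr b hb P hP hPo j hj hjP G hG hG2
  have hE0 : E0 ≤ E := (le_max_left _ _).trans hE
  have hEJ : 64 * 2 ^ J ≤ E := (le_max_right _ _).trans hE
  have hJ1 : 1 ≤ 2 ^ J := Nat.one_le_two_pow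
  have hE64 : 64 ≤ E := by omega
  have hEr : (64 : ℝ) ≤ E := by exact_mod_cast hE64
  have hz2 : 2 ≤ z := by
    have h1 : Real.exp E ≤ z := hSr.1
    have h2 : (E : ℝ) + 1 ≤ Real.exp E := Real.add_one_le_exp _
    have h3 : (2 : ℝ) ≤ z := by linarith only [hEr, h1, h2]
    exact_mod_cast h3
  have hV := VM_pos (M := E / 32) (by omega) hz2
  have hom1 : om y z ≤ 1 := by
    obtain ⟨_, _, hom⟩ := Pool.Agent.Helper74.PP.om_lower
    exact (hom y z hz2).2
  have hjm : j ∈ insert j P := mem_insert_self _ _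
  have hIn : In x (x / 32) x (QQ x) b := ⟨dvd_rfl, hb, by omega⟩
  have hq : 2 ^ J * 1 ≤ E / 16 := by omega
  have hVV : 1 ≤ VV z 1 (2 ^ J * 1) := by
    have h1 := hvl J 1 z le_rfl hz2
    have h2 : 2 ≤ c' * J := by
      rw [div_le_iff₀ hc'] at hJ
      linarith only [hJ]
    linarith only [h1, h2]
  have hP' : insert j P ⊆ Icc 1 y := insert_subset hj hP
  have hPc : ((insert j P).card : ℝ) * om y z ≤ (E : ℝ) ^ 2 := by
    rw [card_insert_of_notMem hjP]
    push_cast
    nlinarith only [hPo, hEr, hom1]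
  have hres := hTG E z x y hE0 hSr (x / 32) x (QQ x) b hIn 1 (2 ^ J) 3 le_rfl hq hVV
    (by omega) (insert j P) hP' hPc ((SS z (z ^ (E / 32))).image (lab j G P))
    (fun r => 1 / (VM (E / 32) z * (Nat.totient (r ⟨j, hjm⟩) : ℝ))) {⟨j, hjm⟩}
    (univ.filter fun i => (i : ℕ) ∈ G) (by simp) ?_ ?_ ?_ ?_ ?_ ?_ ?_ ?_
  · have hinj : Set.InjOn (lab j G P) (SS z (z ^ (E / 32))) := by
      intro s _ s' _ hss
      have := congrFun hss ⟨j, hjm⟩
      rwa [lab_self, lab_self] at this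
    have e1 : ∀ n, ∑ r ∈ (SS z (z ^ (E / 32))).image (lab j G P),
        1 / (VM (E / 32) z * (Nat.totient (r ⟨j, hjm⟩) : ℝ)) *
          ∏ i, vv y z (r i) (n + (i : ℕ)) =
        ff (E / 32) z y (n + j) * ∏ i ∈ G, rg y z (n + i) := by
      intro n
      rw [sum_image hinj, ff, sum_mul]
      refine sum_congr rfl fun s _ => ?_
      rw [lab_self, prod_lab hjP hG s (fun r i => vv y z r (n + i)) (by intro i; simp [vv])]
      simp only [vv_label_one]
      ring
    have e2 : ∑ r ∈ (SS z (z ^ (E / 32))).image (lab j G P),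
        (1 / (VM (E / 32) z * (Nat.totient (r ⟨j, hjm⟩) : ℝ))) ^ 2 *
          (gg y z (nz r) * ∏ i, (if r i = 0 then 1 else (Nat.totient (r i) : ℝ))) =
        gg y z (G.card + 1) / VM (E / 32) z := by
      rw [sum_image hinj]
      have e3 : ∀ s ∈ SS z (z ^ (E / 32)),
          (1 / (VM (E / 32) z * (Nat.totient (lab j G P s ⟨j, hjm⟩) : ℝ))) ^ 2 *
          (gg y z (nz (lab j G P s)) *
            ∏ i, (if lab j G P s i = 0 then 1 else (Nat.totient (lab j G P s i) : ℝ))) =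
          gg y z (G.card + 1) / VM (E / 32) z * (1 / (VM (E / 32) z * (Nat.totient s : ℝ))) := by
        intro s hs
        have hs1 := SS_pos hs
        have hs0 : (0 : ℝ) < Nat.totient s := by exact_mod_cast Nat.totient_pos.2 hs1
        rw [lab_self, nz_lab hjP hG (by omega),
          prod_lab hjP hG s (fun r _ => if r = 0 then 1 else (Nat.totient r : ℝ)) (by simp)]
        rw [if_neg (by omega)]
        simp only [one_ne_zero, if_false, Nat.totient_one, Nat.cast_one, prod_const_one, mul_one]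
        field_simp
      rw [sum_congr rfl e3, ← mul_sum, sum_ff (by omega) hz2, mul_one]
    have e4 : ∀ n, (ff (E / 32) z y (n + j) * ∏ i ∈ G, rg y z (n + i)) ^ 2 =
        ff (E / 32) z y (n + j) ^ 2 * ∏ i ∈ G, rg y z (n + i) := by
      intro n
      rw [mul_pow, ← prod_pow]
      congr 1
      refine prod_congr rfl fun i _ => ?_
      unfold rg
      split_ifs <;> simp
    simp only [e1, e2, e4] at hres
    exact hres
  · -- card G
    refine le_trans ?_ hG2
    refine card_le_card_of_injOn (fun i => (i : ℕ)) ?_ ?_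
    · intro i hi
      exact (mem_filter.1 hi).2
    · intro i _ i' _ hii
      exact Subtype.ext hii
  · rw [disjoint_singleton_left, mem_filter]
    rintro ⟨-, hjG⟩
    exact hjP (hG hjG)
  · intro r hr i hiF hiG
    obtain ⟨s, hs, rfl⟩ := mem_image.1 hr
    left
    have h1 : (i : ℕ) ≠ j := by
      intro h1
      apply hiF
      rw [mem_singleton]
      exact Subtype.ext h1
    have h2 : (i : ℕ) ∉ G := by
      intro h2
      exact hiG (mem_filter.2 ⟨mem_univ _, h2⟩)
    simp [lab, h1, h2]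
  · intro r hr i hi
    obtain ⟨s, hs, rfl⟩ := mem_image.1 hr
    rw [mem_singleton] at hi
    rw [hi, lab_self]
    exact hs
  · intro r hr i hi
    obtain ⟨s, hs, rfl⟩ := mem_image.1 hr
    have h2 : (i : ℕ) ∈ G := (mem_filter.1 hi).2
    have h1 : (i : ℕ) ≠ j := by
      intro h1
      rw [h1] at h2
      exact hjP (hG h2)
    simp [lab, h1, h2]
  · intro r hr
    obtain ⟨s, hs, rfl⟩ := mem_image.1 hr
    have hs1 := SS_pos hs
    rw [nz_lab hjP hG (by omega)]
    omega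
  · intro r hr
    obtain ⟨s, hs, rfl⟩ := mem_image.1 hr
    have hs1 := SS_pos hs
    have hs2 := SS_lt hs
    rw [prod_lab hjP hG s (fun r _ => max 1 r) (by simp)]
    simp only [max_self, prod_const_one, mul_one]
    rw [max_eq_right hs1]
    exact hs2.le.trans (Nat.pow_le_pow_right (by omega) (by omega))
  · intro r hr
    obtain ⟨s, hs, rfl⟩ := mem_image.1 hr
    have hs1 := SS_pos hs
    rw [abs_of_nonneg (by positivity)]
    rw [prod_eq_single (⟨j, hjm⟩ : ↥(insert j P))]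
    · rw [if_pos (mem_singleton_self _)]
    · intro i _ hij
      have h1 : (i : ℕ) ≠ j := fun h1 => hij (Subtype.ext h1)
      rw [if_neg (by rw [mem_singleton]; exact hij)]
      by_cases h2 : (i : ℕ) ∈ G
      · have h3 : i ∈ (univ.filter fun i : ↥(insert j P) => (i : ℕ) ∈ G) :=
          mem_filter.2 ⟨mem_univ _, h2⟩
        rw [if_pos h3]
      · have h3 : i ∉ (univ.filter fun i : ↥(insert j P) => (i : ℕ) ∈ G) :=
          fun h4 => h2 (mem_filter.1 h4).2
        rw [if_neg h3]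
        simp [lab, h1, h2]
    · intro h1
      exact absurd (mem_univ _) h1

/-! ## Sizes -/

/-- `log x` is small compared with exponentials of `E`. -/
theorem logx_small {ε : ℝ} (hε : 0 < ε) : ∃ E0 : ℕ, ∀ E z x y : ℕ, E0 ≤ E → Sr E z x y →
    0 < Real.log x ∧ Real.log x ≤ Real.exp (ε * E) ∧ Real.log z ≤ Real.log x ∧
      (y : ℝ) ≤ Real.exp (2 * (ε * E)) := by
  obtain ⟨n0, hn0⟩ := exists_nat_ge (1 / ε ^ 3)
  refine ⟨max 2 (n0 + 1), fun E z x y hE hSr => ?_⟩
  have hE2 : 2 ≤ E := (le_max_left _ _).trans hE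
  have hEn : n0 + 1 ≤ E := (le_max_right _ _).trans hE
  have hEr : (2 : ℝ) ≤ E := by exact_mod_cast hE2
  have hEnr : (n0 : ℝ) + 1 ≤ E := by exact_mod_cast hEn
  obtain ⟨h1, h2, h3, h4, h5, h6⟩ := hSr
  have hz1 : (1 : ℝ) < z := by
    have := Real.add_one_le_exp (E : ℝ)
    linarith
  have hz1' : 1 < z := by exact_mod_cast hz1
  have hzx : z ≤ x := (Nat.le_self_pow (by omega) z).trans h2
  have hlz : 0 < Real.log z := Real.log_pos hz1
  have hlzx : Real.log z ≤ Real.log x :=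
    Real.log_le_log (by linarith only [hz1]) (by exact_mod_cast hzx)
  have hlx : 0 < Real.log x := hlz.trans_le hlzx
  have ht : Real.log (Real.log x) ≤ ε * E := by
    by_contra hcon
    push Not at hcon
    have a0 : 0 < ε * E := by positivity
    have a1 : (ε * E) ^ 3 < Real.log (Real.log x) ^ 3 := by gcongr
    have a2 : (E : ℝ) < (ε * E) ^ 3 := by
      have b1 : 1 ≤ ε ^ 3 * n0 := by
        rw [div_le_iff₀ (by positivity)] at hn0
        linarith only [hn0]
      have b2 : 1 < ε ^ 3 * E := by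
        have : 0 < ε ^ 3 := by positivity
        nlinarith only [hEnr, b1]
      calc (E : ℝ) = 1 * E := (one_mul _).symm
        _ < ε ^ 3 * E * E := by
            apply mul_lt_mul_of_pos_right b2 (by linarith only [hEr])
        _ ≤ ε ^ 3 * E * E * E := by
            have : 0 ≤ ε ^ 3 * E * E := by positivity
            nlinarith only [h6, a1, b2, hEr, this]
        _ = (ε * E) ^ 3 := by ring
    linarith only [h6, a1, a2]
  have hx : Real.log x ≤ Real.exp (ε * E) := by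
    calc Real.log x = Real.exp (Real.log (Real.log x)) := (Real.exp_log hlx).symm
      _ ≤ Real.exp (ε * E) := Real.exp_le_exp.2 ht
  refine ⟨hlx, hx, hlzx, h5.trans ?_⟩
  calc Real.log x ^ 2 ≤ Real.exp (ε * E) ^ 2 := by gcongr
    _ = Real.exp (2 * (ε * E)) := by rw [← Real.exp_nat_mul]; norm_num

/-- The final error term. -/
theorem err_small {c : ℝ} (hc : 0 < c) : ∃ E0 : ℕ, ∀ E z x y : ℕ, E0 ≤ E → Sr E z x y →
    Real.exp (-(c * E)) * (5 * (y : ℝ) ^ 2) ≤ om y z / E := by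
  obtain ⟨c₁, hc₁, hom⟩ := Pool.Agent.Helper74.PP.om_lower
  set ε : ℝ := c / 12 with hε
  have hε0 : 0 < ε := by positivity
  obtain ⟨E1, hE1⟩ := logx_small hε0
  have ht1 : ∀ᶠ E : ℕ in atTop, (E : ℝ) ≤ Real.exp (ε * E) := by
    have a1 : Tendsto (fun t : ℝ => Real.exp t / t ^ 1) atTop atTop :=
      Real.tendsto_exp_div_pow_atTop 1
    have a2 : Tendsto (fun E : ℕ => ε * (E : ℝ)) atTop atTop :=
      Tendsto.const_mul_atTop hε0 tendsto_natCast_atTop_atTop
    have a3 := (a1.comp a2).eventually_ge_atTop (1 / ε)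
    filter_upwards [a3, eventually_gt_atTop 0] with E h1 h2
    have h2' : (0 : ℝ) < E := by exact_mod_cast h2
    simp only [Function.comp, pow_one] at h1
    rw [div_le_div_iff₀ hε0 (by positivity)] at h1
    have : 1 * (ε * (E : ℝ)) = ε * E := one_mul _
    nlinarith only [h1, hc, hε]
  have ht2 : ∀ᶠ E : ℕ in atTop, 5 * c₁ ≤ Real.exp (6 * (ε * E)) := by
    have a2 : Tendsto (fun E : ℕ => 6 * (ε * (E : ℝ))) atTop atTop :=
      Tendsto.const_mul_atTop (by norm_num)
        (Tendsto.const_mul_atTop hε0 tendsto_natCast_atTop_atTop)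
    exact (Real.tendsto_exp_atTop.comp a2).eventually_ge_atTop _
  obtain ⟨E2, hE2⟩ := eventually_atTop.1 (ht1.and (ht2.and (eventually_ge_atTop 2)))
  refine ⟨max E1 E2, fun E z x y hE hSr => ?_⟩
  obtain ⟨g1, g2, g3⟩ := hE2 E ((le_max_right _ _).trans hE)
  obtain ⟨k1, k2, k3, k4⟩ := hE1 E z x y ((le_max_left _ _).trans hE) hSr
  have hEr : (0 : ℝ) < E := by exact_mod_cast (by omega : 0 < E)
  have hz2 : 2 ≤ z := by
    have h1 : Real.exp E ≤ z := hSr.1
    have h2 : (E : ℝ) + 1 ≤ Real.exp E := Real.add_one_le_exp _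
    have h4 : (2 : ℝ) ≤ E := by exact_mod_cast g3
    have h3 : (2 : ℝ) ≤ z := by linarith only [h1, h2, h4]
    exact_mod_cast h3
  have hlz : 0 < Real.log z := Real.log_pos (by exact_mod_cast (by omega : 1 < z))
  set X : ℝ := Real.exp (ε * E) with hX
  have hX0 : 0 < X := Real.exp_pos _
  have h1 : 1 / (c₁ * X) ≤ om y z := by
    refine le_trans ?_ (hom y z hz2).1
    apply one_div_le_one_div_of_le (by positivity)
    exact mul_le_mul_of_nonneg_left (k3.trans k2) hc₁.le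
  have h2 : 1 / (c₁ * X) / X ≤ om y z / E := by
    apply div_le_div₀ _ h1 hEr g1
    exact le_trans (by positivity) h1
  refine le_trans ?_ h2
  have e1 : Real.exp (-(c * E)) = 1 / X ^ 12 := by
    rw [hX, ← Real.exp_nat_mul, one_div, ← Real.exp_neg]
    congr 1
    rw [hε]; push_cast; ring
  have e2 : Real.exp (6 * (ε * E)) = X ^ 6 := by
    rw [hX, ← Real.exp_nat_mul]; norm_num
  have e3 : Real.exp (2 * (ε * E)) = X ^ 2 := by
    rw [hX, ← Real.exp_nat_mul]; norm_num
  rw [e2] at g2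
  rw [e3] at k4
  rw [e1]
  have h3 : (y : ℝ) ^ 2 ≤ X ^ 4 := by
    calc (y : ℝ) ^ 2 ≤ (X ^ 2) ^ 2 := by gcongr
      _ = X ^ 4 := by ring
  calc 1 / X ^ 12 * (5 * (y : ℝ) ^ 2) ≤ 1 / X ^ 12 * (5 * X ^ 4) := by gcongr
    _ = (5 * c₁) / (c₁ * X * X * X ^ 6) := by field_simp
    _ ≤ X ^ 6 / (c₁ * X * X * X ^ 6) := by gcongr
    _ = 1 / (c₁ * X) / X := by field_simp

/-! ## The bracket -/

theorem bracket {y z N : ℕ} (hy : 16 ≤ y) (hN : N ≤ y) (ho0 : 0 ≤ om y z) (ho1 : om y z ≤ 1) :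
    (N : ℝ) * ((N : ℝ) - 1) * gg y z 3 + (1 - 2 * (N * om y z)) * N * gg y z 2 +
      (N * om y z) ^ 2 * gg y z 1 ≤ 17 * (om y z * (N * om y z)) := by
  have h1 : gg y z 1 = om y z := by simp [gg, om]
  obtain ⟨a1, a2, a3⟩ := Pool.Agent.Helper74.PP.om_pow y z 2 (by omega) (by omega)
  obtain ⟨b1, b2, b3⟩ := Pool.Agent.Helper74.PP.om_pow y z 3 (by omega) (by omega)
  have g2 : gg y z 2 = ∏ p ∈ pr y z, (1 - ((2 : ℕ) : ℝ) / p) := rfl
  have g3 : gg y z 3 = ∏ p ∈ pr y z, (1 - ((3 : ℕ) : ℝ) / p) := rfl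
  rw [← g2] at a1 a2 a3
  rw [← g3] at b2 b3
  set o := om y z with ho
  have hyr : (16 : ℝ) ≤ y := by exact_mod_cast hy
  have hNr : (N : ℝ) ≤ y := by exact_mod_cast hN
  have hN0 : (0 : ℝ) ≤ N := Nat.cast_nonneg N
  have a4 : o ^ 2 - 8 / y * o ^ 2 ≤ gg y z 2 := by
    have := (abs_le.1 a1).1
    push_cast at this
    have e : 2 * (2 : ℝ) ^ 2 / y = 8 / y := by norm_num
    rw [e] at this
    linarith only [this]
  have c1 : (N : ℝ) * ((N : ℝ) - 1) * gg y z 3 ≤ (N : ℝ) * N * o ^ 3 := by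
    have : (N : ℝ) * ((N : ℝ) - 1) * gg y z 3 ≤ (N : ℝ) * N * gg y z 3 := by
      apply mul_le_mul_of_nonneg_right _ b3
      nlinarith
    exact this.trans (mul_le_mul_of_nonneg_left b2 (by positivity))
  have c2 : (N : ℝ) * gg y z 2 ≤ N * o ^ 2 := mul_le_mul_of_nonneg_left a2 hN0
  have c3 : 2 * (N * o) * N * (o ^ 2 - 8 / y * o ^ 2) ≤ 2 * (N * o) * N * gg y z 2 :=
    mul_le_mul_of_nonneg_left a4 (by positivity)
  have c4 : (N : ℝ) * N / y ≤ N := by
    rw [div_le_iff₀ (by linarith only [hyr])]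
    exact mul_le_mul_of_nonneg_left hNr hN0
  have c5 : 16 * (o ^ 3 * ((N : ℝ) * N / y)) ≤ 16 * (o ^ 2 * N) := by
    have : o ^ 3 * ((N : ℝ) * N / y) ≤ o ^ 2 * N := by
      calc o ^ 3 * ((N : ℝ) * N / y) = o ^ 2 * (o * ((N : ℝ) * N / y)) := by ring
        _ ≤ o ^ 2 * (1 * N) := by
            apply mul_le_mul_of_nonneg_left _ (by positivity)
            exact mul_le_mul ho1 c4 (by positivity) zero_le_one
        _ = o ^ 2 * N := by ring
    linarith only [this]
  have e1 : 2 * (N * o) * N * (o ^ 2 - 8 / y * o ^ 2) =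
      2 * ((N : ℝ) * N * o ^ 3) - 16 * (o ^ 3 * ((N : ℝ) * N / y)) := by
    field_simp
    ring
  rw [e1] at c3
  rw [h1]
  have e2 : (1 - 2 * (N * o)) * N * gg y z 2 = N * gg y z 2 - 2 * (N * o) * N * gg y z 2 := by
    ring
  have e3 : ((N : ℝ) * o) ^ 2 * o = (N : ℝ) * N * o ^ 3 := by ring
  have e4 : 17 * (o * (N * o)) = N * o ^ 2 + 16 * (o ^ 2 * N) := by ring
  rw [e2, e3, e4]
  linarith only [c1, c2, c3, c5]

/-! ## The theorem -/

theorem co (h : StmtTG) : StmtCO := by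
  obtain ⟨c, hc, E1, hkey⟩ := key h
  obtain ⟨E2, herr⟩ := err_small hc
  obtain ⟨cm, Cm, hcm, hCm, hma⟩ := Pool.Agent.Helper24.PP.ma
  refine ⟨17 * (64 / cm) + 1, by positivity, max (max E1 E2) 256, ?_⟩
  intro E z x y hE hSr b hb P hP hPo j hj hjP
  have hE1 : E1 ≤ E := ((le_max_left _ _).trans (le_max_left _ _)).trans hE
  have hE2 : E2 ≤ E := ((le_max_right _ _).trans (le_max_left _ _)).trans hE
  have hE256 : 256 ≤ E := (le_max_right _ _).trans hE
  have hEr : (256 : ℝ) ≤ E := by exact_mod_cast hE256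
  have hzE : Real.exp E ≤ z := hSr.1
  have hz32 : 256 ≤ z := by
    have h2 : (E : ℝ) + 1 ≤ Real.exp E := Real.add_one_le_exp _
    have h3 : (256 : ℝ) ≤ z := by linarith only [hEr, hzE, h2]
    exact_mod_cast h3
  have hzx : z ^ E ≤ x := hSr.2.1
  have hy16 : 16 ≤ y := by
    have h1 : Real.log x ≤ y := hSr.2.2.2.1
    have h2 : (E : ℝ) ≤ Real.log z := by
      rw [Real.le_log_iff_exp_le (by exact_mod_cast (by omega : 0 < z))]
      exact hzE
    have h3 : Real.log z ≤ Real.log x :=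
      Real.log_le_log (by exact_mod_cast (by omega : 0 < z))
        (by exact_mod_cast (Nat.le_self_pow (by omega) z).trans hzx)
    have h4 : (16 : ℝ) ≤ y := by linarith only [hEr, h1, h2, h3]
    exact_mod_cast h4
  have ho1 : om y z ≤ 1 := by
    obtain ⟨_, _, hom⟩ := Pool.Agent.Helper74.PP.om_lower
    exact (hom y z (by omega)).2
  have ho0 : 0 ≤ om y z := by
    obtain ⟨c₁, hc₁, hom⟩ := Pool.Agent.Helper74.PP.om_lower
    have hlz : 0 < Real.log z := Real.log_pos (by exact_mod_cast (by omega : 1 < z))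
    exact le_trans (by positivity) (hom y z (by omega)).1
  set V := VM (E / 32) z with hV
  have hV0 : 0 < V := VM_pos (by omega) (by omega)
  have hVE : cm * (E / 64) ≤ V := by
    have h1 := (hma z (E / 32) (by omega) (by omega)).1
    refine le_trans ?_ h1
    apply mul_le_mul_of_nonneg_left _ hcm.le
    rw [div_le_iff₀ (by norm_num)]
    have h2 : E ≤ (E / 32) * 64 := by omega
    exact_mod_cast h2
  set XX := XI (x / 32) x (QQ x) with hXX
  have hXX0 : 0 ≤ XX := by
    rw [hXX, XI]; positivity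
  set NN := NI (x / 32) x (QQ x) b with hNN
  set f : ℕ → ℝ := fun n => ff (E / 32) z y (n + j) ^ 2 with hf
  set δ := Real.exp (-(c * E)) * XX with hδ
  have hδ0 : 0 ≤ δ := by positivity
  set N := P.card with hN
  have hNy : N ≤ y := by
    have := card_le_card hP
    simpa using this
  -- primes
  have hprime : ∀ n ∈ NN, (n + j).Prime → f n = 1 := by
    intro n hn hp
    have hn1 : x / 32 < n := by
      rw [hNN, NI, mem_filter, mem_Ioc] at hn
      exact hn.1.1
    have hj1 : 1 ≤ j := (mem_Icc.1 hj).1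
    have hzn : z ^ (E / 32) ≤ n := by
      by_contra hcon
      push Not at hcon
      have h1 : z ^ (E / 32) * 32 ≤ x := by
        calc z ^ (E / 32) * 32 ≤ z ^ (E / 32) * z := Nat.mul_le_mul_left _ (by omega)
          _ = z ^ (E / 32 + 1) := (pow_succ _ _).symm
          _ ≤ z ^ E := Nat.pow_le_pow_right (by omega) (by omega)
          _ ≤ x := hzx
      omega
    have h1 : ff (E / 32) z y (n + j) = 1 := by
      rw [← sum_ff (M := E / 32) (z := z) (by omega) (by omega), ff]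
      refine sum_congr rfl fun s hs => ?_
      rw [Pool.Agent.Helper59.RR.vv_one (by omega) (by omega) hp hzn (by omega) hs, mul_one]
    simp only [hf, h1, one_pow]
  -- the sum
  have hS : ∀ n, (((P.filter (fun h => Rg y z (n + h))).card : ℝ)) = ∑ i ∈ P, rg y z (n + i) := by
    intro n
    rw [card_filter]
    push_cast
    rfl
  set μ : ℝ := N * om y z with hμ
  have hμ0 : 0 ≤ μ := by positivity
  set MM : Finset ℕ → ℝ := fun G => ∑ n ∈ NN, f n * ∏ i ∈ G, rg y z (n + i) with hMM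
  have hexp : ∑ n ∈ NN, f n * ((((P.filter (fun h => Rg y z (n + h))).card : ℝ)) - μ) ^ 2 =
      ∑ i ∈ P, ∑ i' ∈ P.erase i, MM {i, i'} + (1 - 2 * μ) * ∑ i ∈ P, MM {i} + μ ^ 2 * MM ∅ := by
    have e1 : ∀ n, f n * ((((P.filter (fun h => Rg y z (n + h))).card : ℝ)) - μ) ^ 2 =
        ∑ i ∈ P, ∑ i' ∈ P.erase i, f n * ∏ k ∈ {i, i'}, rg y z (n + k) +
        (1 - 2 * μ) * ∑ i ∈ P, f n * ∏ k ∈ {i}, rg y z (n + k) +
          μ ^ 2 * (f n * ∏ k ∈ (∅ : Finset ℕ), rg y z (n + k)) := by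
      intro n
      rw [hS n]
      have e2 : ∀ i ∈ P, ∑ i' ∈ P.erase i, f n * ∏ k ∈ {i, i'}, rg y z (n + k) =
          f n * (rg y z (n + i) * ∑ i' ∈ P, rg y z (n + i')) - f n * rg y z (n + i) := by
        intro i hi
        have e3 : ∀ i' ∈ P.erase i, f n * ∏ k ∈ {i, i'}, rg y z (n + k) =
            f n * rg y z (n + i) * rg y z (n + i') := by
          intro i' hi'
          rw [prod_pair (ne_of_mem_erase hi').symm]
          ring
        rw [sum_congr rfl e3, ← mul_sum, ← add_sum_erase P _ hi]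
        have e4 : rg y z (n + i) * rg y z (n + i) = rg y z (n + i) := by
          unfold rg
          split_ifs <;> simp
        rw [mul_add, e4]
        ring
      rw [sum_congr rfl e2]
      simp only [prod_singleton, prod_empty, sum_sub_distrib, ← mul_sum]
      rw [← sum_mul]
      ring
    rw [sum_congr rfl fun n _ => e1 n, sum_add_distrib, sum_add_distrib, ← mul_sum, ← mul_sum]
    congr 1
    congr 1
    · rw [sum_comm]
      refine sum_congr rfl fun i _ => ?_
      rw [sum_comm]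
    · congr 1
      rw [sum_comm]
  have hk : ∀ G ⊆ P, G.card ≤ 2 → |MM G - XX * (gg y z (G.card + 1) / V)| ≤ δ := by
    intro G hG hG2
    exact hkey E z x y hE1 hSr b hb P hP hPo j hj hjP G hG hG2
  have hm2 : ∀ i ∈ P, ∀ i' ∈ P.erase i, MM {i, i'} ≤ XX * (gg y z 3 / V) + δ := by
    intro i hi i' hi'
    have hne : i ≠ i' := (ne_of_mem_erase hi').symm
    have h1 := hk {i, i'} (by
      intro k hk
      rw [mem_insert, mem_singleton] at hk
      rcases hk with rfl | rfl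
      · exact hi
      · exact mem_of_mem_erase hi') (by rw [card_pair hne])
    rw [card_pair hne] at h1
    have := (abs_le.1 h1).2
    linarith only [this]
  have hm1 : ∀ i ∈ P, |MM {i} - XX * (gg y z 2 / V)| ≤ δ := by
    intro i hi
    have h1 := hk {i} (singleton_subset_iff.2 hi) (by simp)
    rwa [card_singleton] at h1
  have hm0 : MM ∅ ≤ XX * (gg y z 1 / V) + δ := by
    have h1 := hk ∅ (empty_subset _) (by simp)
    rw [card_empty] at h1
    have := (abs_le.1 h1).2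
    simp only [zero_add] at this
    linarith only [this]
  have hN0 : (0 : ℝ) ≤ N := Nat.cast_nonneg N
  have hcard : ∀ i ∈ P, ((P.erase i).card : ℝ) = N - 1 := by
    intro i hi
    rw [card_erase_of_mem hi]
    have : 1 ≤ P.card := card_pos.2 ⟨i, hi⟩
    push_cast [Nat.cast_sub this]
    rfl
  have t1 : ∑ i ∈ P, ∑ i' ∈ P.erase i, MM {i, i'} ≤
      N * ((N - 1) * (XX * (gg y z 3 / V) + δ)) := by
    calc ∑ i ∈ P, ∑ i' ∈ P.erase i, MM {i, i'} ≤
        ∑ i ∈ P, ((N : ℝ) - 1) * (XX * (gg y z 3 / V) + δ) := by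
          refine sum_le_sum fun i hi => ?_
          refine (sum_le_sum (hm2 i hi)).trans (le_of_eq ?_)
          rw [sum_const, nsmul_eq_mul, hcard i hi]
      _ = _ := by rw [sum_const, nsmul_eq_mul]
  have t2 : |∑ i ∈ P, MM {i} - N * (XX * (gg y z 2 / V))| ≤ N * δ := by
    have e : ∑ i ∈ P, MM {i} - N * (XX * (gg y z 2 / V)) =
        ∑ i ∈ P, (MM {i} - XX * (gg y z 2 / V)) := by
      rw [sum_sub_distrib, sum_const, nsmul_eq_mul]
    rw [e]
    refine (abs_sum_le_sum_abs _ _).trans ((sum_le_sum hm1).trans (le_of_eq ?_))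
    rw [sum_const, nsmul_eq_mul]
  have t3 : (1 - 2 * μ) * ∑ i ∈ P, MM {i} ≤
      (1 - 2 * μ) * (N * (XX * (gg y z 2 / V))) + (1 + 2 * μ) * (N * δ) := by
    have h1 : (1 - 2 * μ) * (∑ i ∈ P, MM {i} - N * (XX * (gg y z 2 / V))) ≤
        |1 - 2 * μ| * (N * δ) := by
      refine (le_abs_self _).trans ?_
      rw [abs_mul]
      exact mul_le_mul_of_nonneg_left t2 (abs_nonneg _)
    have h2 : |1 - 2 * μ| ≤ 1 + 2 * μ := by
      rw [abs_le]; constructor <;> linarith only [hμ0]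
    have h3 : |1 - 2 * μ| * (N * δ) ≤ (1 + 2 * μ) * (N * δ) :=
      mul_le_mul_of_nonneg_right h2 (by positivity)
    linarith only [h1, h3]
  have t4 : μ ^ 2 * MM ∅ ≤ μ ^ 2 * (XX * (gg y z 1 / V) + δ) :=
    mul_le_mul_of_nonneg_left hm0 (by positivity)
  have hmain : ∑ n ∈ NN.filter (fun n => (n + j).Prime),
      (((P.filter (fun h => Rg y z (n + h))).card : ℝ) - μ) ^ 2 ≤
      ∑ n ∈ NN, f n * ((((P.filter (fun h => Rg y z (n + h))).card : ℝ)) - μ) ^ 2 := by
    calc ∑ n ∈ NN.filter (fun n => (n + j).Prime),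
        (((P.filter (fun h => Rg y z (n + h))).card : ℝ) - μ) ^ 2 =
        ∑ n ∈ NN.filter (fun n => (n + j).Prime),
          f n * (((P.filter (fun h => Rg y z (n + h))).card : ℝ) - μ) ^ 2 := by
          refine sum_congr rfl fun n hn => ?_
          rw [mem_filter] at hn
          rw [hprime n hn.1 hn.2, one_mul]
      _ ≤ _ := by
          refine sum_le_sum_of_subset_of_nonneg (filter_subset _ _) fun n _ _ => ?_
          exact mul_nonneg (sq_nonneg _) (sq_nonneg _)
  refine hmain.trans ?_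
  rw [hexp]
  have hbr := bracket (z := z) hy16 hNy ho0 ho1
  rw [← hμ] at hbr
  have hAV : 0 ≤ XX / V := by positivity
  have hbr2 := mul_le_mul_of_nonneg_left hbr hAV
  have hδb : N * ((N - 1) * δ) + (1 + 2 * μ) * (N * δ) + μ ^ 2 * δ ≤ XX * (om y z / E) := by
    have h1 : μ ≤ N := by
      rw [hμ]; exact mul_le_of_le_one_right hN0 ho1
    have h2 : (N : ℝ) ≤ y := by exact_mod_cast hNy
    have h3 : N * ((N - 1) * δ) + (1 + 2 * μ) * (N * δ) + μ ^ 2 * δ =
        δ * ((N : ℝ) * N + 2 * μ * N + μ ^ 2) := by ring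
    have h4 : (N : ℝ) * N + 2 * μ * N + μ ^ 2 ≤ 5 * (y : ℝ) ^ 2 := by nlinarith only [ho1, ho0, h2]
    have h5 := herr E z x y hE2 hSr
    rw [h3]
    calc δ * ((N : ℝ) * N + 2 * μ * N + μ ^ 2) ≤ δ * (5 * (y : ℝ) ^ 2) :=
          mul_le_mul_of_nonneg_left h4 hδ0
      _ = XX * (Real.exp (-(c * E)) * (5 * (y : ℝ) ^ 2)) := by rw [hδ]; ring
      _ ≤ XX * (om y z / E) := mul_le_mul_of_nonneg_left h5 hXX0
  have hmainb : XX / V * (17 * (om y z * μ)) ≤ 17 * (64 / cm) * (XX * (om y z / E)) * μ := by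
    have h1 : XX / V ≤ XX / (cm * (E / 64)) := by
      apply div_le_div_of_nonneg_left hXX0 (by positivity) hVE
    calc XX / V * (17 * (om y z * μ)) ≤ XX / (cm * (E / 64)) * (17 * (om y z * μ)) :=
          mul_le_mul_of_nonneg_right h1 (by positivity)
      _ = _ := by field_simp
  have hfin : 17 * (64 / cm) * (XX * (om y z / E)) * μ + XX * (om y z / E) ≤
      (17 * (64 / cm) + 1) * (XX * (om y z / E)) * (μ + 1) := by
    have h1 : 0 ≤ XX * (om y z / E) := by positivity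
    have h2 : 0 ≤ 17 * (64 / cm) := by positivity
    nlinarith only [h1, hμ0, h2, mul_nonneg h1 hμ0, mul_nonneg h2 h1]
  have e5 : XX / V * (N * (N - 1) * gg y z 3 + (1 - 2 * μ) * N * gg y z 2 + μ ^ 2 * gg y z 1) =
      N * ((N - 1) * (XX * (gg y z 3 / V))) + (1 - 2 * μ) * (N * (XX * (gg y z 2 / V))) +
        μ ^ 2 * (XX * (gg y z 1 / V)) := by ring
  rw [e5] at hbr2
  have e6 : N * ((N - 1) * (XX * (gg y z 3 / V) + δ)) =
      N * ((N - 1) * (XX * (gg y z 3 / V))) + N * ((N - 1) * δ) := by ring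
  have e7 : μ ^ 2 * (XX * (gg y z 1 / V) + δ) =
      μ ^ 2 * (XX * (gg y z 1 / V)) + μ ^ 2 * δ := by ring
  rw [e6] at t1
  rw [e7] at t4
  linarith only [t1, t3, t4, hbr2, hδb, hmainb, hfin]

end Pool.Agent.Helper40.CG
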